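import Pool.Agent.Helper93.KS.St3

/-!
# Project KS (MP_77e955_nt), module SIG: upper bound sieve weights
-/

set_option autoImplicit false

noncomputable section

namespace Pool.Agent.Helper85.KS

open Finset Filter Topology Pool.Agent.Helper93.KS
open Pool.Agent.Helper15.AB (StMT)
open Pool.Agent.Helper18.TR (StBonf StFLmain StLevel fam0 fam1)
open Pool.Agent.Helper9.TW (gm Qs fm)
open Pool.Agent.Helper93.KP (gk vk tk rn gn TK qk StRTS)

/-! ### Harmonic sums -/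

private theorem har_up (a b : ℕ) (ha : 1 ≤ a) (hab : a ≤ b) :
    ∑ k ∈ Ioc a b, (1 : ℝ) / k ≤ Real.log b - Real.log a := by
  induction b, hab using Nat.le_induction with
  | base => simp
  | succ b hab ih =>
    rw [Finset.sum_Ioc_succ_top hab]
    have hb : (0 : ℝ) < b := by
      have : 0 < b := by omega
      exact_mod_cast this
    have h1 : Real.log (b : ℝ) - Real.log ((b + 1 : ℕ) : ℝ) ≤ -(1 / ((b + 1 : ℕ) : ℝ)) := by
      rw [← Real.log_div (ne_of_gt hb) (by positivity)]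
      refine (Real.log_le_sub_one_of_pos (by positivity)).trans (le_of_eq ?_)
      push_cast
      field_simp
      ring
    linarith

private theorem har_lo (a b : ℕ) (hab : a ≤ b) :
    Real.log ((b : ℝ) + 1) - Real.log ((a : ℝ) + 1) ≤ ∑ k ∈ Ioc a b, (1 : ℝ) / k := by
  induction b, hab using Nat.le_induction with
  | base => simp
  | succ b hab ih =>
    rw [Finset.sum_Ioc_succ_top hab]
    have h1 : Real.log (((b + 1 : ℕ) : ℝ) + 1) - Real.log ((b : ℝ) + 1) ≤ 1 / ((b + 1 : ℕ) : ℝ) := by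
      rw [← Real.log_div (by positivity) (by positivity)]
      refine (Real.log_le_sub_one_of_pos (by positivity)).trans (le_of_eq ?_)
      push_cast
      field_simp
      ring
    linarith

/-- the sum of `1 / k` over the `k` with `X < d k ≤ Y` -/
private theorem har_div (d X Y : ℕ) (hd : 1 ≤ d) (hdX : 2 * d ≤ X) (hXY : X ≤ Y) :
    |∑ k ∈ Ioc (X / d) (Y / d), (1 : ℝ) / k - Real.log ((Y : ℝ) / X)| ≤ 2 * d / X := by
  have hd0 : (0 : ℝ) < d := by exact_mod_cast hd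
  have hX0 : (0 : ℝ) < X := by
    have : 0 < X := by omega
    exact_mod_cast this
  have hY0 : (0 : ℝ) < Y := by
    have : 0 < Y := by omega
    exact_mod_cast this
  have hdX' : 2 * (d : ℝ) ≤ X := by exact_mod_cast hdX
  have ha1 : 1 ≤ X / d := (Nat.one_le_div_iff (by omega)).mpr (by omega)
  have hab : X / d ≤ Y / d := Nat.div_le_div_right hXY
  have ha0 : (0 : ℝ) < ((X / d : ℕ) : ℝ) := by exact_mod_cast ha1
  have hb0 : (0 : ℝ) < ((Y / d : ℕ) : ℝ) := by exact_mod_cast ha1.trans hab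
  have a1 : (X : ℝ) < d * (((X / d : ℕ) : ℝ) + 1) := by
    have := Nat.lt_mul_div_succ X (show 0 < d by omega)
    exact_mod_cast this
  have b1 : (Y : ℝ) < d * (((Y / d : ℕ) : ℝ) + 1) := by
    have := Nat.lt_mul_div_succ Y (show 0 < d by omega)
    exact_mod_cast this
  have a2 : (d : ℝ) * ((X / d : ℕ) : ℝ) ≤ X := by
    have := Nat.mul_div_le X d
    exact_mod_cast this
  have b2 : (d : ℝ) * ((Y / d : ℕ) : ℝ) ≤ Y := by
    have := Nat.mul_div_le Y d
    exact_mod_cast this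
  have hlog : Real.log ((Y : ℝ) / X) = Real.log Y - Real.log X := Real.log_div hY0.ne' hX0.ne'
  have h1 := har_up (X / d) (Y / d) ha1 hab
  have h2 := har_lo (X / d) (Y / d) hab
  have hXd : (0 : ℝ) < (X : ℝ) - d := by linarith
  rw [abs_le]
  constructor
  · -- lower bound
    have e1 : Real.log ((Y : ℝ) / d) ≤ Real.log (((Y / d : ℕ) : ℝ) + 1) := by
      refine Real.log_le_log (by positivity) ?_
      rw [div_le_iff₀ hd0]
      linarith
    have e2 : Real.log (((X / d : ℕ) : ℝ) + 1) ≤ Real.log (((X : ℝ) + d) / d) := by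
      refine Real.log_le_log (by positivity) ?_
      rw [le_div_iff₀ hd0]
      linarith
    rw [Real.log_div hY0.ne' hd0.ne'] at e1
    rw [Real.log_div (by positivity) hd0.ne'] at e2
    have e3 : Real.log ((X : ℝ) + d) - Real.log X ≤ d / X := by
      rw [← Real.log_div (by positivity) hX0.ne']
      refine (Real.log_le_sub_one_of_pos (by positivity)).trans (le_of_eq ?_)
      field_simp
      ring
    have e4 : (0 : ℝ) ≤ d / X := by positivity
    have e5 : 2 * (d : ℝ) / X = d / X + d / X := by ring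
    rw [hlog, e5]
    linarith
  · have e1 : Real.log ((Y / d : ℕ) : ℝ) ≤ Real.log ((Y : ℝ) / d) := by
      refine Real.log_le_log hb0 ?_
      rw [le_div_iff₀ hd0]
      linarith
    have e2 : Real.log (((X : ℝ) - d) / d) ≤ Real.log ((X / d : ℕ) : ℝ) := by
      refine Real.log_le_log (by positivity) ?_
      rw [div_le_iff₀ hd0]
      linarith
    rw [Real.log_div hY0.ne' hd0.ne'] at e1
    rw [Real.log_div hXd.ne' hd0.ne'] at e2
    have e3 : Real.log (X : ℝ) - Real.log ((X : ℝ) - d) ≤ 2 * d / X := by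
      rw [← Real.log_div hX0.ne' hXd.ne']
      refine (Real.log_le_sub_one_of_pos (by positivity)).trans ?_
      have e6 : (X : ℝ) / ((X : ℝ) - d) - 1 = d / ((X : ℝ) - d) := by
        field_simp
        ring
      rw [e6, div_le_div_iff₀ hXd hX0]
      nlinarith
    rw [hlog]
    linarith

/-- the multiples of `d` -/
private theorem sum_mul {A : Type} [AddCommMonoid A] (f : ℕ → A) (d X Y : ℕ) (hd : 1 ≤ d) :
    ∑ M ∈ Ioc X Y, (if d ∣ M then f M else 0) = ∑ k ∈ Ioc (X / d) (Y / d), f (d * k) := by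
  rw [← Finset.sum_filter]
  symm
  refine Finset.sum_nbij (fun k => d * k) ?_ ?_ ?_ ?_
  · intro k hk
    rw [mem_Ioc] at hk
    rw [mem_filter, mem_Ioc]
    refine ⟨⟨?_, ?_⟩, dvd_mul_right d k⟩
    · have := (Nat.div_lt_iff_lt_mul (show 0 < d by omega)).mp hk.1
      rwa [mul_comm] at this
    · have := (Nat.le_div_iff_mul_le (show 0 < d by omega)).mp hk.2
      rwa [mul_comm] at this
  · intro k _ l _ h
    exact Nat.eq_of_mul_eq_mul_left (show 0 < d by omega) h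
  · intro M hM
    rw [mem_coe, mem_filter, mem_Ioc] at hM
    obtain ⟨⟨h1, h2⟩, k, rfl⟩ := hM
    refine ⟨k, ?_, rfl⟩
    rw [mem_coe, mem_Ioc]
    refine ⟨?_, ?_⟩
    · rw [Nat.div_lt_iff_lt_mul (show 0 < d by omega), mul_comm]
      exact h1
    · rw [Nat.le_div_iff_mul_le (show 0 < d by omega), mul_comm]
      exact h2
  · intro k _
    rfl

/-! ### The sets of primes -/

private theorem fam0_sub (w b : ℕ) (Q D : Finset ℕ) (h : D ∈ fam0 w b Q) : D ⊆ Q := by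
  simp only [fam0, Finset.mem_filter, Finset.mem_powerset] at h
  exact h.1

private theorem Qs_pr (a : ℕ) (θ : ℝ) (p : ℕ) (h : p ∈ Qs a θ) :
    p.Prime ∧ p ≤ ⌊(a : ℝ) ^ θ⌋₊ ∧ (p : ℝ) < (a : ℝ) ^ θ ∧ 7 ≤ p := by
  unfold Qs at h
  rw [mem_filter, mem_Icc] at h
  exact ⟨h.2.1, h.1.2, h.2.2, h.1.1⟩

private theorem prod_inj (D D' : Finset ℕ) (h : ∀ p ∈ D, p.Prime) (h' : ∀ p ∈ D', p.Prime)
    (he : ∏ p ∈ D, p = ∏ p ∈ D', p) : D = D' := by
  have h1 : (∏ p ∈ D, p).primeFactors = D := Nat.primeFactors_prod h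
  have h2 : (∏ p ∈ D', p).primeFactors = D' := Nat.primeFactors_prod h'
  rw [← h1, he, h2]

private theorem prod_ind (D : Finset ℕ) (hD : ∀ p ∈ D, p.Prime) (M : ℕ) :
    ∏ p ∈ D, (if p ∣ M then (1 : ℝ) else 0) = if (∏ p ∈ D, p) ∣ M then 1 else 0 := by
  rw [Finset.prod_ite_zero]
  simp only [Finset.prod_const_one]
  by_cases h : ∀ p ∈ D, p ∣ M
  · rw [if_pos h, if_pos (Finset.prod_primes_dvd _ (fun p hp => (hD p hp).prime) h)]
  · rw [if_neg h, if_neg]
    intro h2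
    exact h fun p hp => (Finset.dvd_prod_of_mem _ hp).trans h2

/-- at most `N` sets with product at most `N` -/
private theorem card_fam (F : Finset (Finset ℕ)) (N : ℕ) (hF : ∀ D ∈ F, ∀ p ∈ D, p.Prime)
    (hN : ∀ D ∈ F, ∏ p ∈ D, p ≤ N) : F.card ≤ N := by
  have h1 : F.card ≤ (Icc 1 N).card := by
    refine Finset.card_le_card_of_injOn (fun D => ∏ p ∈ D, p) ?_ ?_
    · intro D hD
      rw [mem_coe] at hD
      simp only [mem_coe, mem_Icc]
      exact ⟨Finset.prod_pos fun p hp => (hF D hD p hp).pos, hN D hD⟩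
    · intro D hD D' hD' he
      exact prod_inj D D' (hF D hD) (hF D' hD') he
  rwa [Nat.card_Icc, Nat.add_sub_cancel] at h1

/-! ### The main term -/

/-- lower bound for the sum of `1 / p` over `Qs` -/
private theorem sum_Qs (C : ℝ) (hC : ∀ y : ℝ, 3 ≤ y →
    |∑ l ∈ (Icc 1 ⌊y⌋₊).filter Nat.Prime, (1 : ℝ) / l - Real.log (Real.log y)| ≤ C)
    (N : ℕ) (θ : ℝ) (hy : 3 ≤ (N : ℝ) ^ θ) :
    Real.log (Real.log ((N : ℝ) ^ θ)) - C - 3 ≤ ∑ p ∈ Qs N θ, (1 : ℝ) / p := by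
  have h1 := (abs_le.1 (hC _ hy)).1
  set w : ℕ := ⌊(N : ℝ) ^ θ⌋₊ with hw
  have hw1 : 1 ≤ w := Nat.le_floor (by push_cast; linarith)
  have hsub : (Icc 1 w).filter Nat.Prime ⊆ Qs N θ ∪ ({2, 3, 5, w} : Finset ℕ) := by
    intro p hp
    rw [mem_filter, mem_Icc] at hp
    obtain ⟨⟨h2, h3⟩, h4⟩ := hp
    rw [mem_union]
    by_cases h5 : 7 ≤ p
    · by_cases h6 : p = w
      · right
        rw [h6]
        simp
      · left
        unfold Qs
        rw [mem_filter, mem_Icc]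
        refine ⟨⟨h5, h3⟩, h4, ?_⟩
        have h7 : p < w := lt_of_le_of_ne h3 h6
        have h8 : (w : ℝ) ≤ (N : ℝ) ^ θ := Nat.floor_le (by linarith)
        have h9 : (p : ℝ) < w := by exact_mod_cast h7
        linarith
    · right
      have h6 : p < 7 := by omega
      interval_cases p
      · exact absurd h4 (by norm_num)
      · simp
      · simp
      · exact absurd h4 (by norm_num)
      · simp
      · exact absurd h4 (by norm_num)
  have h2 : ∑ l ∈ (Icc 1 w).filter Nat.Prime, (1 : ℝ) / l ≤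
      ∑ l ∈ Qs N θ ∪ ({2, 3, 5, w} : Finset ℕ), (1 : ℝ) / l :=
    sum_le_sum_of_subset_of_nonneg hsub fun i _ _ => by positivity
  have h3 : ∑ l ∈ Qs N θ ∪ ({2, 3, 5, w} : Finset ℕ), (1 : ℝ) / l ≤
      ∑ l ∈ Qs N θ, (1 : ℝ) / l + ∑ l ∈ ({2, 3, 5, w} : Finset ℕ), (1 : ℝ) / l := by
    rw [← Finset.sum_union_inter]
    have : (0 : ℝ) ≤ ∑ l ∈ Qs N θ ∩ ({2, 3, 5, w} : Finset ℕ), (1 : ℝ) / l :=
      sum_nonneg fun i _ => by positivity
    linarith
  have h4 : ∑ l ∈ ({2, 3, 5, w} : Finset ℕ), (1 : ℝ) / l ≤ 1 / 2 + (1 / 3 + (1 / 5 + 1)) := by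
    have e : ∀ (a : ℕ) (S : Finset ℕ), ∑ l ∈ insert a S, (1 : ℝ) / l ≤ 1 / a + ∑ l ∈ S, (1 : ℝ) / l := by
      intro a S
      by_cases ha : a ∈ S
      · rw [insert_eq_of_mem ha]
        have : (0 : ℝ) ≤ 1 / a := by positivity
        linarith
      · rw [sum_insert ha]
    have hw2 : (1 : ℝ) / w ≤ 1 := by
      have : (1 : ℝ) ≤ w := by exact_mod_cast hw1
      rw [div_le_one (by linarith)]
      exact this
    have e1 := e 2 {3, 5, w}
    have e2 := e 3 {5, w}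
    have e3 := e 5 {w}
    rw [sum_singleton] at e3
    push_cast at e1 e2 e3
    linarith
  linarith

/-- the main term -/
private theorem main_le (b : ℕ) (hF : ∀ w : ℕ,
    ∀ Q : Finset ℕ, (∀ p ∈ Q, p.Prime ∧ p ≤ w) → ∀ g : ℕ → ℝ,
    (∀ p ∈ Q, 0 ≤ g p ∧ g p ≤ 1 / p ∧ g p ≤ 1 / 2) →
    ∑ T ∈ fam0 w b Q, (-1 : ℝ) ^ T.card * ∏ p ∈ T, g p ≤ (1 + 1) * ∏ p ∈ Q, (1 - g p) ∧
    (1 - 1) * ∏ p ∈ Q, (1 - g p) ≤
      ∑ T ∈ fam0 w b Q ∪ fam1 w b Q, (-1 : ℝ) ^ T.card * ∏ p ∈ T, g p)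
    (C : ℝ) (hC : ∀ y : ℝ, 3 ≤ y →
    |∑ l ∈ (Icc 1 ⌊y⌋₊).filter Nat.Prime, (1 : ℝ) / l - Real.log (Real.log y)| ≤ C)
    (N : ℕ) (θ : ℝ) (hθ : 0 < θ) (hN : 2 ≤ N) (hy : 3 ≤ (N : ℝ) ^ θ) :
    ∑ D ∈ fam0 ⌊(N : ℝ) ^ θ⌋₊ b (Qs N θ), (-1 : ℝ) ^ D.card * (1 / ((∏ p ∈ D, p : ℕ) : ℝ)) ≤
      2 * Real.exp (C + 3) / θ / Real.log N := by
  have hN0 : (1 : ℝ) < N := by
    have : 1 < N := by omega
    exact_mod_cast this
  have hlog : 0 < Real.log N := Real.log_pos hN0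
  have h1 := (hF ⌊(N : ℝ) ^ θ⌋₊ (Qs N θ) (fun p hp => ⟨(Qs_pr N θ p hp).1, (Qs_pr N θ p hp).2.1⟩)
    (fun p => 1 / (p : ℝ)) (by
      intro p hp
      have h7 : (7 : ℝ) ≤ p := by exact_mod_cast (Qs_pr N θ p hp).2.2.2
      refine ⟨by positivity, le_rfl, ?_⟩
      exact one_div_le_one_div_of_le (by norm_num) (by linarith))).1
  have h2 : ∀ D : Finset ℕ, ∏ p ∈ D, (1 : ℝ) / p = 1 / ((∏ p ∈ D, p : ℕ) : ℝ) := by
    intro D
    rw [Finset.prod_div_distrib, Finset.prod_const_one]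
    push_cast
    rfl
  simp only [h2] at h1
  refine h1.trans ?_
  have h3 : ∏ p ∈ Qs N θ, (1 - 1 / (p : ℝ)) ≤ Real.exp (-(∑ p ∈ Qs N θ, (1 : ℝ) / p)) := by
    rw [← sum_neg_distrib, Real.exp_sum]
    refine Finset.prod_le_prod ?_ ?_
    · intro p hp
      have h7 : (7 : ℝ) ≤ p := by exact_mod_cast (Qs_pr N θ p hp).2.2.2
      have : (1 : ℝ) / p ≤ 1 / 1 := one_div_le_one_div_of_le (by norm_num) (by linarith)
      linarith
    · intro p _
      have := Real.add_one_le_exp (-(1 / (p : ℝ)))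
      linarith
  have h4 := sum_Qs C hC N θ hy
  have h5 : Real.log ((N : ℝ) ^ θ) = θ * Real.log N := Real.log_rpow (by linarith) θ
  rw [h5] at h4
  have h6 : Real.exp (-(∑ p ∈ Qs N θ, (1 : ℝ) / p)) ≤
      Real.exp (C + 3 - Real.log (θ * Real.log N)) := Real.exp_le_exp.2 (by linarith)
  have h7 : Real.exp (C + 3 - Real.log (θ * Real.log N)) = Real.exp (C + 3) / (θ * Real.log N) := by
    rw [Real.exp_sub, Real.exp_log (by positivity)]
  rw [h7] at h6
  have h8 : 2 * Real.exp (C + 3) / θ / Real.log N = 2 * (Real.exp (C + 3) / (θ * Real.log N)) := by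
    field_simp
  rw [h8]
  linarith

theorem hSIG (hB : StBonf) (hF : StFLmain) (hL : StLevel) (hM : StMT) : StSIG := by
  intro θ hθ hθ1
  obtain ⟨b, hb, hF⟩ := hF 1 1 one_pos one_pos
  obtain ⟨B, hLB⟩ := hL b
  obtain ⟨C, hC0, hC⟩ := hM
  set τ : ℝ := min θ (1 / ((B : ℝ) + 1)) with hτ
  have hB1 : (0 : ℝ) < (B : ℝ) + 1 := by positivity
  have hτ0 : 0 < τ := lt_min hθ (by positivity)
  have hτθ : τ ≤ θ := min_le_left _ _
  have hτB : τ ≤ 1 / ((B : ℝ) + 1) := min_le_right _ _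
  have hC1 : 0 < 2 * Real.exp (C + 3) / τ := by positivity
  refine ⟨2 * Real.exp (C + 3) / τ + 2, by linarith, ?_⟩
  have hev : ∀ᶠ N : ℕ in atTop, 3 ≤ (N : ℝ) ^ τ :=
    ((tendsto_rpow_atTop hτ0).comp tendsto_natCast_atTop_atTop).eventually_ge_atTop 3
  filter_upwards [hev, eventually_ge_atTop 2] with N hy hN
  have hN1 : (1 : ℝ) ≤ N := by
    have : 1 ≤ N := by omega
    exact_mod_cast this
  have hN2 : (2 : ℝ) ≤ N := by exact_mod_cast hN
  have hN0 : (0 : ℝ) < N := by linarith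
  have hlog : 0 < Real.log N := Real.log_pos (by linarith)
  set w : ℕ := ⌊(N : ℝ) ^ τ⌋₊ with hw
  have hw1 : 1 ≤ w := Nat.le_floor (by push_cast; linarith)
  have hwN : (w : ℝ) ≤ (N : ℝ) ^ τ := Nat.floor_le (by linarith)
  set F : Finset (Finset ℕ) := fam0 w b (Qs N τ) with hFd
  have hFs : ∀ D ∈ F, D ⊆ Qs N τ := fun D hD => fam0_sub w b _ D hD
  have hFp : ∀ D ∈ F, ∀ p ∈ D, p.Prime := fun D hD p hp => (Qs_pr N τ p (hFs D hD hp)).1
  have hFN : ∀ D ∈ F, ∏ p ∈ D, p ≤ N := by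
    intro D hD
    have h1 := hLB w hw1 (Qs N τ) (fun p hp => ⟨(Qs_pr N τ p hp).1, (Qs_pr N τ p hp).2.1⟩) D
      (mem_union_left _ hD)
    have h2 : ((w ^ B : ℕ) : ℝ) ≤ N := by
      push_cast
      calc (w : ℝ) ^ B ≤ ((N : ℝ) ^ τ) ^ B := pow_le_pow_left₀ (by positivity) hwN B
        _ = (N : ℝ) ^ (τ * B) := by rw [Real.rpow_mul (by linarith), Real.rpow_natCast]
        _ ≤ (N : ℝ) ^ (1 : ℝ) := by
            refine Real.rpow_le_rpow_of_exponent_le hN1 ?_
            have h3 : τ * B ≤ 1 / ((B : ℝ) + 1) * B :=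
              mul_le_mul_of_nonneg_right hτB (Nat.cast_nonneg B)
            have h4 : 1 / ((B : ℝ) + 1) * B ≤ 1 := by
              rw [div_mul_eq_mul_div, one_mul, div_le_one hB1]
              linarith
            linarith
        _ = N := Real.rpow_one _
    have h3 : w ^ B ≤ N := by exact_mod_cast h2
    exact h1.trans h3
  have hF1 : ∀ D ∈ F, 1 ≤ ∏ p ∈ D, p := fun D hD => Finset.prod_pos fun p hp => (hFp D hD p hp).pos
  have hFc : F.card ≤ N := card_fam F N hFp hFN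
  have hFcR : (F.card : ℝ) ≤ N := by exact_mod_cast hFc
  have hbon : ∀ M : ℕ, ∏ p ∈ Qs N τ, (1 - (if p ∣ M then (1 : ℝ) else 0)) ≤
      ∑ D ∈ F, (-1 : ℝ) ^ D.card * ∏ p ∈ D, (if p ∣ M then (1 : ℝ) else 0) := fun M =>
    (hB w b (Qs N τ) (fun p => if p ∣ M then (1 : ℝ) else 0) hb (fun p _ => by
      split_ifs <;> norm_num)).2
  have hσ : ∀ M : ℕ, ∑ D ∈ F, (-1 : ℝ) ^ D.card * ∏ p ∈ D, (if p ∣ M then (1 : ℝ) else 0) =
      ∑ D ∈ F, (-1 : ℝ) ^ D.card * (if (∏ p ∈ D, p) ∣ M then (1 : ℝ) else 0) := fun M =>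
    sum_congr rfl fun D hD => by rw [prod_ind D (hFp D hD) M]
  have hXN : ∀ X : ℕ, N ^ 3 ≤ X → ∀ D ∈ F, 2 * (∏ p ∈ D, p) ≤ X := by
    intro X hX D hD
    have h1 := hFN D hD
    have h2 : 2 * N ≤ N ^ 3 := by
      have : 2 * 1 ≤ N * N := Nat.mul_le_mul hN (by omega)
      calc 2 * N ≤ (N * N) * N := Nat.mul_le_mul_right _ (by omega)
        _ = N ^ 3 := by ring
    omega
  refine ⟨fun M => ∑ D ∈ F, (-1 : ℝ) ^ D.card * ∏ p ∈ D, (if p ∣ M then (1 : ℝ) else 0),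
    ?_, ?_, ?_, ?_⟩
  · intro M
    refine le_trans ?_ (hbon M)
    refine Finset.prod_nonneg fun p _ => ?_
    split_ifs <;> norm_num
  · intro M _ hMp
    refine le_trans (le_of_eq ?_) (hbon M)
    symm
    refine Finset.prod_eq_one fun p hp => ?_
    rw [if_neg, sub_zero]
    intro hd
    obtain ⟨q1, _, q3, _⟩ := Qs_pr N τ p hp
    have h1 := hMp p q1 hd
    have h2 : (N : ℝ) ^ τ ≤ (N : ℝ) ^ θ := Real.rpow_le_rpow_of_exponent_le hN1 hτθ
    linarith
  · intro X Y hX hXY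
    have hX0 : (0 : ℝ) < X := by
      have h1 : 0 < N ^ 3 := by positivity
      have : 0 < X := by omega
      exact_mod_cast this
    have hXY' : (X : ℝ) ≤ Y := by exact_mod_cast hXY
    have hL0 : 0 ≤ Real.log ((Y : ℝ) / X) := Real.log_nonneg (by rw [le_div_iff₀ hX0]; linarith)
    have hXR : (N : ℝ) ^ 3 ≤ X := by exact_mod_cast hX
    have e1 : ∑ M ∈ Ioc X Y, (∑ D ∈ F, (-1 : ℝ) ^ D.card * ∏ p ∈ D, (if p ∣ M then (1 : ℝ) else 0)) / M =
        ∑ D ∈ F, (-1 : ℝ) ^ D.card * (1 / ((∏ p ∈ D, p : ℕ) : ℝ) *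
          ∑ k ∈ Ioc (X / ∏ p ∈ D, p) (Y / ∏ p ∈ D, p), (1 : ℝ) / k) := by
      have e2 : ∀ M : ℕ, (∑ D ∈ F, (-1 : ℝ) ^ D.card * ∏ p ∈ D, (if p ∣ M then (1 : ℝ) else 0)) / M =
          ∑ D ∈ F, (-1 : ℝ) ^ D.card * (if (∏ p ∈ D, p) ∣ M then (1 : ℝ) / M else 0) := by
        intro M
        rw [hσ M, Finset.sum_div]
        refine sum_congr rfl fun D _ => ?_
        split_ifs <;> simp [div_eq_mul_inv]
      simp only [e2]
      rw [Finset.sum_comm]
      refine sum_congr rfl fun D hD => ?_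
      rw [← Finset.mul_sum, sum_mul (fun M : ℕ => (1 : ℝ) / M) _ X Y (hF1 D hD)]
      refine congrArg (fun t : ℝ => (-1 : ℝ) ^ D.card * t) ?_
      rw [Finset.mul_sum]
      refine sum_congr rfl fun k _ => ?_
      push_cast
      rw [one_div_mul_one_div]
    have e3 : ∀ D ∈ F, (-1 : ℝ) ^ D.card * (1 / ((∏ p ∈ D, p : ℕ) : ℝ) *
          ∑ k ∈ Ioc (X / ∏ p ∈ D, p) (Y / ∏ p ∈ D, p), (1 : ℝ) / k) ≤
        (-1 : ℝ) ^ D.card * (1 / ((∏ p ∈ D, p : ℕ) : ℝ)) * Real.log ((Y : ℝ) / X) + 2 / X := by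
      intro D hD
      have hd1 := hF1 D hD
      have hd0 : (0 : ℝ) < ((∏ p ∈ D, p : ℕ) : ℝ) := by exact_mod_cast hd1
      have h1 := har_div (∏ p ∈ D, p) X Y hd1 (hXN X hX D hD) hXY
      set d : ℕ := ∏ p ∈ D, p with hd
      set S : ℝ := ∑ k ∈ Ioc (X / d) (Y / d), (1 : ℝ) / k with hS
      have h2 : (-1 : ℝ) ^ D.card * (1 / (d : ℝ) * S) -
          (-1 : ℝ) ^ D.card * (1 / (d : ℝ)) * Real.log ((Y : ℝ) / X) =
          (-1 : ℝ) ^ D.card * (1 / (d : ℝ) * (S - Real.log ((Y : ℝ) / X))) := by ring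
      have h3 : (-1 : ℝ) ^ D.card * (1 / (d : ℝ) * (S - Real.log ((Y : ℝ) / X))) ≤ 2 / X := by
        refine (le_abs_self _).trans ?_
        rw [abs_mul, abs_pow, abs_neg, abs_one, one_pow, one_mul, abs_mul,
          abs_of_pos (by positivity : (0 : ℝ) < 1 / (d : ℝ))]
        calc 1 / (d : ℝ) * |S - Real.log ((Y : ℝ) / X)| ≤ 1 / (d : ℝ) * (2 * d / X) :=
              mul_le_mul_of_nonneg_left h1 (by positivity)
          _ = 2 / X := by field_simp
      linarith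
    rw [e1]
    refine (sum_le_sum e3).trans ?_
    rw [sum_add_distrib, ← Finset.sum_mul, Finset.sum_const, nsmul_eq_mul]
    have e4 := main_le b hF C hC N τ hτ0 hN hy
    have e5 : (F.card : ℝ) * (2 / X) ≤ 2 := by
      rw [mul_div_assoc', div_le_iff₀ hX0]
      have : (N : ℝ) ≤ (N : ℝ) ^ 3 := by
        calc (N : ℝ) = (N : ℝ) ^ 1 := (pow_one _).symm
          _ ≤ (N : ℝ) ^ 3 := pow_le_pow_right₀ hN1 (by norm_num)
      linarith
    have e6 : (∑ D ∈ F, (-1 : ℝ) ^ D.card * (1 / ((∏ p ∈ D, p : ℕ) : ℝ))) * Real.log ((Y : ℝ) / X) ≤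
        2 * Real.exp (C + 3) / τ / Real.log N * Real.log ((Y : ℝ) / X) :=
      mul_le_mul_of_nonneg_right e4 hL0
    have e7 : 2 * Real.exp (C + 3) / τ / Real.log N * Real.log ((Y : ℝ) / X) =
        2 * Real.exp (C + 3) / τ * (Real.log ((Y : ℝ) / X) / Real.log N) := by
      field_simp
    have e8 : 0 ≤ Real.log ((Y : ℝ) / X) / Real.log N := by positivity
    rw [e7] at e6
    nlinarith
  · intro χ K hχ hχ1 hK hsum X Y hX hXY
    have hXp : 0 < X := by
      have h1 : 0 < N ^ 3 := by positivity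
      omega
    have hX0 : (0 : ℝ) < X := by exact_mod_cast hXp
    have e2 : ∀ M : ℕ, ((∑ D ∈ F, (-1 : ℝ) ^ D.card * ∏ p ∈ D, (if p ∣ M then (1 : ℝ) else 0) : ℝ) : ℂ) *
        χ M / M =
        ∑ D ∈ F, (-1 : ℂ) ^ D.card * (if (∏ p ∈ D, p) ∣ M then χ M / M else 0) := by
      intro M
      rw [hσ M]
      push_cast
      rw [mul_div_assoc, Finset.sum_mul]
      refine sum_congr rfl fun D _ => ?_
      split_ifs <;> simp
    simp only [e2]
    rw [Finset.sum_comm]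
    have e3 : ∀ D ∈ F, ‖∑ M ∈ Ioc X Y, (-1 : ℂ) ^ D.card *
        (if (∏ p ∈ D, p) ∣ M then χ M / M else 0)‖ ≤ 2 * K / X := by
      intro D hD
      have hd1 := hF1 D hD
      have h2d := hXN X hX D hD
      set d : ℕ := ∏ p ∈ D, p with hd
      have hd0 : (0 : ℝ) < (d : ℝ) := by exact_mod_cast hd1
      have ha1 : 1 ≤ X / d := (Nat.one_le_div_iff (by omega)).mpr (by omega)
      have ha0 : (0 : ℝ) < ((X / d : ℕ) : ℝ) := by exact_mod_cast ha1
      have hab : X / d ≤ Y / d := Nat.div_le_div_right hXY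
      rw [← Finset.mul_sum, sum_mul (fun M : ℕ => χ M / (M : ℂ)) d X Y hd1, norm_mul, norm_pow,
        norm_neg, norm_one, one_pow, one_mul]
      have h1 : ∑ k ∈ Ioc (X / d) (Y / d), χ (d * k) / ((d * k : ℕ) : ℂ) =
          χ d / d * ∑ k ∈ Ioc (X / d) (Y / d), χ k / k := by
        rw [Finset.mul_sum]
        refine sum_congr rfl fun k _ => ?_
        rw [hχ]
        push_cast
        rw [mul_div_mul_comm]
      rw [h1, norm_mul]
      have h2 : ‖χ d / (d : ℂ)‖ ≤ 1 / d := by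
        rw [norm_div, Complex.norm_natCast]
        exact div_le_div_of_nonneg_right (hχ1 d) hd0.le
      have h3 := hsum (X / d) (Y / d) ha1 hab
      have h4 : (X : ℝ) ≤ 2 * (d * ((X / d : ℕ) : ℝ)) := by
        have h5 := Nat.lt_mul_div_succ X (show 0 < d by omega)
        have h6 : d * (X / d + 1) ≤ 2 * (d * (X / d)) := by
          have : d * 1 ≤ d * (X / d) := Nat.mul_le_mul_left d ha1
          rw [mul_add]
          omega
        have h7 : X ≤ 2 * (d * (X / d)) := by omega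
        exact_mod_cast h7
      calc ‖χ d / (d : ℂ)‖ * ‖∑ k ∈ Ioc (X / d) (Y / d), χ k / k‖ ≤
            1 / d * (K / ((X / d : ℕ) : ℝ)) :=
            mul_le_mul h2 h3 (norm_nonneg _) (by positivity)
        _ = K / (d * ((X / d : ℕ) : ℝ)) := by
            rw [div_mul_div_comm, one_mul]
        _ ≤ 2 * K / X := by
            rw [div_le_div_iff₀ (by positivity) hX0]
            nlinarith
    refine (norm_sum_le_of_le F e3).trans ?_
    rw [Finset.sum_const, nsmul_eq_mul, mul_div_assoc', div_le_div_iff_of_pos_right hX0]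
    nlinarith [mul_nonneg hK hN0.le]

end Pool.Agent.Helper85.KS
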